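import Mathlib
set_option autoImplicit false
open IsLocalRing TensorProduct

namespace Pool.Agent.N12.LD

/-- rank of a tensor product of linear maps -/
theorem range_map {k G T : Type*} [Field k] [AddCommGroup G] [Module k G] [AddCommGroup T] [Module k T]
    (f : G →ₗ[k] G) (g : T →ₗ[k] T) :
    LinearMap.range (TensorProduct.map f g) =
      LinearMap.range (TensorProduct.map (LinearMap.range f).subtype (LinearMap.range g).subtype) := by
  have h : TensorProduct.map f g =
      (TensorProduct.map (LinearMap.range f).subtype (LinearMap.range g).subtype).comp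
        (TensorProduct.map f.rangeRestrict g.rangeRestrict) := by
    rw [← TensorProduct.map_comp]
    rfl
  rw [h, LinearMap.range_comp_of_range_eq_top]
  rw [LinearMap.range_eq_top]
  exact TensorProduct.map_surjective f.surjective_rangeRestrict g.surjective_rangeRestrict

theorem injective_map {k G T : Type*} [Field k] [AddCommGroup G] [Module k G] [AddCommGroup T] [Module k T]
    (f : G →ₗ[k] G) (g : T →ₗ[k] T) :
    Function.Injective
      (TensorProduct.map (LinearMap.range f).subtype (LinearMap.range g).subtype) := by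
  have h : TensorProduct.map (LinearMap.range f).subtype (LinearMap.range g).subtype =
      ((LinearMap.range f).subtype.rTensor T).comp
        ((LinearMap.range g).subtype.lTensor (LinearMap.range f)) := by
    rw [LinearMap.rTensor_comp_lTensor]
  rw [h]
  have h1 : Function.Injective ((LinearMap.range f).subtype.rTensor T) :=
    Module.Flat.rTensor_preserves_injective_linearMap _ (Submodule.subtype_injective _)
  have h2 : Function.Injective ((LinearMap.range g).subtype.lTensor (LinearMap.range f)) :=
    Module.Flat.lTensor_preserves_injective_linearMap _ (Submodule.subtype_injective _)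
  exact h1.comp h2

theorem finite_range_map {k G T : Type*} [Field k] [AddCommGroup G] [Module k G] [AddCommGroup T]
    [Module k T] (f : G →ₗ[k] G) (g : T →ₗ[k] T) [Module.Finite k (LinearMap.range f)]
    [Module.Finite k (LinearMap.range g)] :
    Module.Finite k (LinearMap.range (TensorProduct.map f g)) := by
  rw [range_map]
  infer_instance

theorem finrank_range_map {k G T : Type*} [Field k] [AddCommGroup G] [Module k G] [AddCommGroup T]
    [Module k T] (f : G →ₗ[k] G) (g : T →ₗ[k] T) :
    Module.finrank k (LinearMap.range (TensorProduct.map f g)) =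
      Module.finrank k (LinearMap.range f) * Module.finrank k (LinearMap.range g) := by
  rw [range_map, LinearMap.finrank_range_of_inj (injective_map f g), Module.finrank_tensorProduct]

theorem trace_J {k G T : Type*} [Field k] [AddCommGroup G] [Module k G] [AddCommGroup T] [Module k T]
    (pi : ℕ → G →ₗ[k] G) (P : ℕ → T →ₗ[k] T) (J : T →ₗ[k] T)
    (hpi : ∀ i j g, pi i (pi j g) = if i = j then pi j g else 0)
    (hP : ∀ i j t, P i (P j t) = if i = j then P j t else 0)
    (hJ : ∀ i t, J (P i t) = (-1 : k) ^ i • P i t)
    (fpi : ∀ i, Module.Finite k (LinearMap.range (pi i))) (fP : ∀ i, Module.Finite k (LinearMap.range (P i)))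
    (S : Finset (ℕ × ℕ)) (X : Submodule k (G ⊗[k] T))
    (hX : X = LinearMap.range (∑ s ∈ S, TensorProduct.map (pi s.1) (P s.2))) :
    Module.Finite k X ∧ ∀ JX : X →ₗ[k] X, (∀ z : X, (JX z : G ⊗[k] T) = J.lTensor G (z : G ⊗[k] T)) →
      LinearMap.trace k X JX = ∑ s ∈ S, (-1 : k) ^ s.2 *
        (Module.finrank k (LinearMap.range (pi s.1)) : k) * (Module.finrank k (LinearMap.range (P s.2)) : k) := by
  classical
  set e : ℕ × ℕ → (G ⊗[k] T →ₗ[k] G ⊗[k] T) := fun s => TensorProduct.map (pi s.1) (P s.2) with he
  have hee : ∀ s t : ℕ × ℕ, (e s).comp (e t) = if s = t then e t else 0 := by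
    intro s t
    have h1 : (e s).comp (e t) =
        TensorProduct.map ((pi s.1).comp (pi t.1)) ((P s.2).comp (P t.2)) := by
      rw [TensorProduct.map_comp]
    have h2 : (pi s.1).comp (pi t.1) = if s.1 = t.1 then pi t.1 else 0 := by
      ext g
      rw [LinearMap.comp_apply, hpi]
      split_ifs <;> rfl
    have h3 : (P s.2).comp (P t.2) = if s.2 = t.2 then P t.2 else 0 := by
      ext g
      rw [LinearMap.comp_apply, hP]
      split_ifs <;> rfl
    rw [h1, h2, h3]
    by_cases a : s.1 = t.1 <;> by_cases b : s.2 = t.2
    · rw [if_pos a, if_pos b, if_pos (Prod.ext a b)]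
    · rw [if_neg b, TensorProduct.map_zero_right, if_neg (fun h => b (congrArg Prod.snd h))]
    · rw [if_neg a, TensorProduct.map_zero_left, if_neg (fun h => a (congrArg Prod.fst h))]
    · rw [if_neg a, TensorProduct.map_zero_left, if_neg (fun h => a (congrArg Prod.fst h))]
  have hee' : ∀ s t : ℕ × ℕ, ∀ z, e s (e t z) = if s = t then e t z else 0 := by
    intro s t z
    have := LinearMap.congr_fun (hee s t) z
    rw [LinearMap.comp_apply] at this
    rw [this]
    split_ifs <;> rfl
  set E : G ⊗[k] T →ₗ[k] G ⊗[k] T := ∑ s ∈ S, e s with hE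
  have hEapp : ∀ z, E z = ∑ s ∈ S, e s z := by
    intro z
    rw [hE, LinearMap.sum_apply]
  have hEe : ∀ s ∈ S, ∀ z, E (e s z) = e s z := by
    intro s hs z
    rw [hEapp, Finset.sum_eq_single s]
    · rw [hee', if_pos rfl]
    · intro t _ ht
      rw [hee', if_neg ht]
    · intro h
      exact absurd hs h
  have hmemE : ∀ s ∈ S, ∀ z, e s z ∈ X := by
    intro s hs z
    rw [hX]
    exact ⟨e s z, hEe s hs z⟩
  have hEX : ∀ z ∈ X, E z = z := by
    intro z hz
    rw [hX] at hz
    obtain ⟨w, rfl⟩ := hz
    change E (E w) = E w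
    rw [hEapp w, map_sum]
    exact Finset.sum_congr rfl fun s hs => hEe s hs w
  have hfe : ∀ s, Module.Finite k (LinearMap.range (e s)) := by
    intro s
    have := fpi s.1
    have := fP s.2
    exact finite_range_map _ _
  have hfin : Module.Finite k X := by
    have h0 : Module.Finite k (↥(S.sup fun s => LinearMap.range (e s))) :=
      Submodule.finiteDimensional_finset_sup S _
    refine Submodule.finiteDimensional_of_le (S₂ := S.sup fun s => LinearMap.range (e s)) ?_
    intro z hz
    rw [← hEX z hz, hEapp]
    refine Submodule.sum_mem _ fun s hs => ?_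
    exact (Finset.le_sup (f := fun s => LinearMap.range (e s)) hs) ⟨z, rfl⟩
  refine ⟨hfin, ?_⟩
  intro JX hJX
  -- the restrictions of the idempotents
  let eX : ℕ × ℕ → (X →ₗ[k] X) := fun s =>
    if hs : s ∈ S then ((e s).comp X.subtype).codRestrict X (fun z => hmemE s hs z) else 0
  have heX : ∀ s ∈ S, ∀ z : X, ((eX s z : X) : G ⊗[k] T) = e s z := by
    intro s hs z
    simp only [eX, dif_pos hs]
    rfl
  have hlJ : ∀ s z, J.lTensor G (e s z) = (-1 : k) ^ s.2 • e s z := by
    intro s z
    have h1 : (J.lTensor G).comp (e s) = (-1 : k) ^ s.2 • e s := by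
      have h2 : J.comp (P s.2) = (-1 : k) ^ s.2 • P s.2 := by
        ext t
        exact hJ _ _
      rw [LinearMap.lTensor, he]
      change (TensorProduct.map LinearMap.id J).comp (TensorProduct.map (pi s.1) (P s.2)) = _
      rw [← TensorProduct.map_comp, h2, TensorProduct.map_smul_right, LinearMap.id_comp]
    exact LinearMap.congr_fun h1 z
  have hJsum : JX = ∑ s ∈ S, (-1 : k) ^ s.2 • eX s := by
    ext z
    rw [hJX, LinearMap.sum_apply]
    rw [AddSubmonoidClass.coe_finsetSum]
    have h1 : (z : G ⊗[k] T) = ∑ s ∈ S, e s z := by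
      rw [← hEapp, hEX z z.2]
    conv_lhs => rw [h1]
    rw [map_sum]
    refine Finset.sum_congr rfl fun s hs => ?_
    rw [hlJ, LinearMap.smul_apply, Submodule.coe_smul, heX s hs]
  rw [hJsum, map_sum]
  refine Finset.sum_congr rfl fun s hs => ?_
  rw [map_smul, smul_eq_mul, mul_assoc]
  congr 1
  -- trace of the idempotent
  have hidem : ∀ z, eX s (eX s z) = eX s z := by
    intro z
    apply Subtype.ext
    rw [heX s hs, heX s hs, hee', if_pos rfl]
  have hproj : LinearMap.IsProj (LinearMap.range (eX s)) (eX s) := by
    refine ⟨fun z => ⟨z, rfl⟩, ?_⟩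
    rintro _ ⟨w, rfl⟩
    exact hidem w
  have hfr : ∀ Y : Submodule k X, Module.Free k Y := fun Y => Module.Free.of_divisionRing k Y
  have htr : LinearMap.trace k X (eX s) = (Module.finrank k (LinearMap.range (eX s)) : k) := by
    have hff : ∀ Y : Submodule k X, Module.Finite k Y := fun Y =>
      FiniteDimensional.finiteDimensional_submodule Y
    have a1 := hfr (LinearMap.range (eX s))
    have a2 := hfr (LinearMap.ker (eX s))
    have a3 := hff (LinearMap.range (eX s))
    have a4 := hff (LinearMap.ker (eX s))
    exact hproj.trace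
  rw [htr]
  have h1 : Module.finrank k (LinearMap.range (eX s)) = Module.finrank k (LinearMap.range (e s)) := by
    have h2 : (LinearMap.range (eX s)).map X.subtype = LinearMap.range (e s) := by
      ext z
      constructor
      · rintro ⟨_, ⟨w, rfl⟩, rfl⟩
        exact ⟨w, (heX s hs w).symm⟩
      · rintro ⟨w, rfl⟩
        refine ⟨eX s ⟨e s w, hmemE s hs w⟩, ⟨_, rfl⟩, ?_⟩
        change ((eX s ⟨e s w, hmemE s hs w⟩ : X) : G ⊗[k] T) = _
        rw [heX s hs, hee', if_pos rfl]
    rw [← h2]
    exact (Submodule.equivMapOfInjective X.subtype (Submodule.subtype_injective X) _).finrank_eq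
  rw [h1, he]
  simp only
  rw [finrank_range_map, Nat.cast_mul]

end Pool.Agent.N12.LD
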